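import Mathlib
import Pool.Agent.TH913.MK.P8
import Pool.Agent.H499R2.Mult3
import Pool.Agent.Results.MP_30e119_nt.ZagierSecondOrder

set_option autoImplicit false

namespace Pool.Agent.X16.MN

open Pool.Agent.H499R2 (prs mult_bound Ex Mk exN mkN)

/-- every entry of a Markov triple is the largest entry of a Markov triple -/
lemma mk_max (m : ℕ) (hm : 1 ≤ m) : ∀ s x y : ℕ, x + y ≤ s → 1 ≤ x → 1 ≤ y →
    x ^ 2 + y ^ 2 + m ^ 2 = 3 * x * y * m →
    ∃ a b : ℕ, 1 ≤ a ∧ a ≤ b ∧ b ≤ m ∧ a ^ 2 + b ^ 2 + m ^ 2 = 3 * a * b * m := by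
  intro s
  induction s with
  | zero => intro x y h hx; omega
  | succ s ih =>
    intro x y hs hx hy h
    wlog hxy : x ≤ y generalizing x y
    · exact this y x (by omega) hy hx (by rw [← h.symm.trans (by ring : x ^ 2 + y ^ 2 + m ^ 2 = y ^ 2 + x ^ 2 + m ^ 2)] ; ring) (by omega)
    by_cases hym : y ≤ m
    · exact ⟨x, y, hx, hxy, hym, h⟩
    push Not at hym
    -- y > m, y ≥ x
    have hy3 : y ≤ 3 * x * m := by
      by_contra hcon
      push Not at hcon
      have : 3 * x * y * m < y * y := by nlinarith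
      nlinarith
    obtain ⟨z, hz⟩ := Nat.exists_eq_add_of_le hy3
    -- 3xm = y + z
    have hprod : y * z = x ^ 2 + m ^ 2 := by
      have h1 : 3 * x * y * m = y * (3 * x * m) := by ring
      rw [h1, hz] at h
      nlinarith
    have hz1 : 1 ≤ z := by
      rcases Nat.eq_zero_or_pos z with h0 | h0
      · exfalso; rw [h0, mul_zero] at hprod; nlinarith
      · exact h0
    have hzy : z < y := by
      by_contra hcon
      push Not at hcon
      have h1 : y * y ≤ y * z := Nat.mul_le_mul_left y hcon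
      have h2 : x * x ≤ y * y := Nat.mul_le_mul hxy hxy
      have h3 : m * m < y * y := Nat.mul_lt_mul'' hym hym
      -- x^2+m^2 >= y^2 and  y + z = 3 x m
      have h4 : y * (y + z) = 3 * x * m * y := by rw [← hz]; ring
      have h5 : y * y + x ^ 2 + m ^ 2 = 3 * x * m * y := by nlinarith
      -- x < y ? if x = y then y | m^2 relation
      rcases Nat.lt_or_ge x y with hlt | hge
      · -- 3 x m y with max(x,m) < y
        rcases Nat.lt_or_ge x m with hc | hc
        · -- x < m < y : 3xmy >= 3 m y > ...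
          have : y * y + x ^ 2 + m ^ 2 < 3 * x * m * y ∨ True := Or.inr trivial
          -- f(m) <= 0 : y z <= ... use (y - m)(m - z) >= 0 impossible
          have h6 : (y : ℤ) * z = x ^ 2 + m ^ 2 := by exact_mod_cast hprod
          have h7 : (y : ℤ) + z = 3 * x * m := by exact_mod_cast hz.symm
          have h8 : (m : ℤ) < y := by exact_mod_cast hym
          have h9 : (y : ℤ) ≤ z := by exact_mod_cast hcon
          have h10 : (x : ℤ) < m := by exact_mod_cast hc
          have h11 : (1 : ℤ) ≤ x := by exact_mod_cast hx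
          have h12 : ((y : ℤ) - m) * (z - m) > 0 := mul_pos (by linarith) (by linarith)
          nlinarith [mul_nonneg (by linarith : (0:ℤ) ≤ x - 1) (by positivity : (0:ℤ) ≤ (m:ℤ) * m), mul_pos (by linarith : (0:ℤ) < m - x) (by linarith : (0:ℤ) < (m:ℤ) + x)]
        · have h6 : (y : ℤ) * z = x ^ 2 + m ^ 2 := by exact_mod_cast hprod
          have h7 : (y : ℤ) + z = 3 * x * m := by exact_mod_cast hz.symm
          have h8 : (x : ℤ) < y := by exact_mod_cast hlt
          have h9 : (y : ℤ) ≤ z := by exact_mod_cast hcon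
          have h10 : (m : ℤ) ≤ x := by exact_mod_cast hc
          have h11 : (1 : ℤ) ≤ m := by exact_mod_cast hm
          have h12 : ((y : ℤ) - x) * (z - x) > 0 := mul_pos (by linarith) (by linarith)
          nlinarith [mul_nonneg (by linarith : (0:ℤ) ≤ m - 1) (by positivity : (0:ℤ) ≤ (x:ℤ) * x), mul_nonneg (by linarith : (0:ℤ) ≤ x - m) (by linarith : (0:ℤ) ≤ (x:ℤ) + m)]
      · have hxy' : x = y := by omega
        subst hxy'
        -- x (z) = x^2 + m^2, x+z = 3xm : z = 3xm - x = x(3m-1)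
        have h6 : z = x * (3 * m) - x := by
          have : 3 * x * m = x * (3 * m) := by ring
          omega
        have h7 : x + z = x * (3 * m) := by rw [← hz]; ring
        -- x*z + x*x = x*x*3m ; x z = x^2+m^2
        have h8 : x * x * (3 * m) = x * z + x * x := by
          have : x * (x + z) = x * (x * (3 * m)) := by rw [h7]
          nlinarith
        have h9 : x * x * (3 * m) = 2 * (x * x) + m * m := by rw [h8, hprod]; ring
        nlinarith [Nat.mul_le_mul (le_refl (x*x)) (show 3 ≤ 3 * m by omega)]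
    exact ih x z (by omega) hx hz1 (by
      have h1 : 3 * x * z * m = z * (3 * x * m) := by ring
      rw [h1, hz]
      nlinarith)

lemma mem_prs {m : ℕ} {p : ℕ × ℕ} : p ∈ prs m ↔
    (1 ≤ p.1 ∧ p.1 ≤ p.2 ∧ p.2 ≤ m ∧ p.1 ^ 2 + p.2 ^ 2 + m ^ 2 = 3 * p.1 * p.2 * m) := by
  unfold prs
  rw [Finset.mem_filter, Finset.mem_product, Finset.mem_Icc, Finset.mem_Icc]
  constructor
  · rintro ⟨⟨⟨h1, h2⟩, h3, h4⟩, h5, h6⟩; exact ⟨h1, h5, h4, h6⟩
  · rintro ⟨h1, h2, h3, h4⟩; exact ⟨⟨⟨h1, by omega⟩, by omega, h3⟩, h2, h4⟩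

lemma mk_iff {m : ℕ} (hm : 1 ≤ m) : Mk m ↔ 1 ≤ (prs m).card := by
  rw [Nat.one_le_iff_ne_zero, Ne, Finset.card_eq_zero, ← Ne, ← Finset.nonempty_iff_ne_empty]
  constructor
  · rintro ⟨x, y, hx, hy, h⟩
    obtain ⟨a, b, h1, h2, h3, h4⟩ := mk_max m hm (x + y) x y le_rfl hx hy h
    exact ⟨(a, b), mem_prs.2 ⟨h1, h2, h3, h4⟩⟩
  · rintro ⟨p, hp⟩
    obtain ⟨h1, h2, h3, h4⟩ := mem_prs.1 hp
    exact ⟨p.1, p.2, by omega, by omega, h4⟩

lemma ex_iff {m : ℕ} : Ex m ↔ 2 ≤ (prs m).card := by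
  constructor
  · rintro ⟨p, q, hne, hp, hq⟩
    exact Finset.one_lt_card.2 ⟨p, mem_prs.2 hp, q, mem_prs.2 hq, hne⟩
  · intro h
    obtain ⟨p, hp, q, hq, hne⟩ := Finset.one_lt_card.1 h
    exact ⟨p, q, hne, mem_prs.1 hp, mem_prs.1 hq⟩

open Pool.Agent.Results.MP_30e119_nt.ZagierSecondOrder (N C)

/-- Zagier's counting function in terms of the numbers of triples -/
lemma N_eq (n : ℕ) : N (n : ℝ) = ∑ m ∈ Finset.Icc 1 n, (prs m).card := by
  unfold N
  rw [Nat.floor_natCast]
  rw [Finset.card_eq_sum_card_fiberwise (f := fun t : ℕ × ℕ × ℕ => t.2.2) (t := Finset.Icc 1 n)]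
  · apply Finset.sum_congr rfl
    intro m hm
    rw [Finset.mem_Icc] at hm
    refine Finset.card_bij' (fun t _ => (t.1, t.2.1)) (fun p _ => (p.1, p.2, m)) ?_ ?_ ?_ ?_
    · intro t ht
      rw [Finset.mem_filter, Finset.mem_filter] at ht
      obtain ⟨⟨hmem, h1, h2, h3⟩, h4⟩ := ht
      simp only [Finset.mem_product, Finset.mem_Icc] at hmem
      rw [mem_prs]
      subst h4
      exact ⟨hmem.1.1, h1, h2, h3⟩
    · intro p hp
      rw [mem_prs] at hp
      rw [Finset.mem_filter, Finset.mem_filter]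
      simp only [Finset.mem_product, Finset.mem_Icc]
      obtain ⟨h1, h2, h3, h4⟩ := hp
      exact ⟨⟨⟨⟨h1, by omega⟩, ⟨by omega, by omega⟩, ⟨by omega, by omega⟩⟩, h2, h3, h4⟩, trivial⟩
    · intro t ht
      rw [Finset.mem_filter] at ht
      obtain ⟨_, h4⟩ := ht
      subst h4
      rfl
    · intro p _; rfl
  · intro t ht
    rw [Finset.mem_coe, Finset.mem_filter] at ht
    have := ht.1
    simp only [Finset.mem_product, Finset.mem_Icc] at this
    rw [Finset.mem_coe, Finset.mem_Icc]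
    exact this.2.2

end Pool.Agent.X16.MN
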